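import Mathlib

set_option autoImplicit false

namespace Pool.Agent.H273Z.AP

open Finset

/-- The `k`-term arithmetic progressions in `[n] = {1, …, n}`, each given by its first term `a ≥ 1`
and its common difference `d ≥ 1`, with last term `a + (k - 1) d ≤ n`. -/
def aps (k n : ℕ) : Finset (ℕ × ℕ) :=
  (Icc 1 n ×ˢ Icc 1 n).filter (fun p => p.1 + (k - 1) * p.2 ≤ n)

/-- The number of monochromatic `k`-term progressions of the colouring `χ` in `[n]`. -/
def monoCount {r : ℕ} (k n : ℕ) (χ : ℕ → Fin r) : ℕ :=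
  ((aps k n).filter (fun p => ∀ j < k, χ (p.1 + j * p.2) = χ p.1)).card

theorem mem_aps {k n : ℕ} (hk : 2 ≤ k) {p : ℕ × ℕ} :
    p ∈ aps k n ↔ 1 ≤ p.1 ∧ 1 ≤ p.2 ∧ p.1 + (k - 1) * p.2 ≤ n := by
  unfold aps
  simp only [mem_filter, mem_product, mem_Icc]
  constructor
  · rintro ⟨⟨⟨h1, _⟩, h2, _⟩, h3⟩
    exact ⟨h1, h2, h3⟩
  · rintro ⟨h1, h2, h3⟩
    have : p.2 ≤ (k - 1) * p.2 := Nat.le_mul_of_pos_left _ (by omega)
    exact ⟨⟨⟨h1, by omega⟩, h2, by omega⟩, h3⟩

theorem card_aps {k : ℕ} (hk : 2 ≤ k) (n : ℕ) :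
    (aps k n).card = ∑ m ∈ range n, m / (k - 1) := by
  have hK : 0 < k - 1 := by omega
  rw [card_eq_sum_card_fiberwise (f := fun p : ℕ × ℕ => p.1 + (k - 1) * p.2 - 1) (t := range n)]
  · refine sum_congr rfl fun m hm => ?_
    have hm' := mem_range.1 hm
    have : m / (k - 1) = (Icc 1 (m / (k - 1))).card := by simp
    rw [this]
    refine card_bij (fun p _ => p.2) ?_ ?_ ?_
    · intro p hp
      rw [mem_filter, mem_aps hk] at hp
      obtain ⟨⟨h1, h2, _⟩, h4⟩ := hp
      rw [mem_Icc]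
      refine ⟨h2, (Nat.le_div_iff_mul_le hK).2 ?_⟩
      rw [mul_comm]; omega
    · intro p hp q hq h
      rw [mem_filter, mem_aps hk] at hp hq
      obtain ⟨⟨h1, _, _⟩, h4⟩ := hp
      obtain ⟨⟨h1', _, _⟩, h4'⟩ := hq
      replace h : p.2 = q.2 := h
      rw [h] at h4
      exact Prod.ext (by omega) h
    · intro d hd
      rw [mem_Icc, Nat.le_div_iff_mul_le hK, mul_comm] at hd
      refine ⟨(m + 1 - (k - 1) * d, d), ?_, rfl⟩
      rw [mem_filter, mem_aps hk]
      simp only
      omega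
  · intro p hp
    rw [mem_coe, mem_aps hk] at hp
    simp only [coe_range, Set.mem_Iio]
    omega

theorem sum_range_cast (n : ℕ) : ∑ m ∈ range n, (m : ℝ) = n * (n - 1) / 2 := by
  induction n with
  | zero => simp
  | succ n ih => rw [sum_range_succ, ih]; push_cast; ring

theorem card_aps_le {k : ℕ} (hk : 2 ≤ k) (n : ℕ) :
    ((aps k n).card : ℝ) ≤ (n : ℝ) ^ 2 / (2 * ((k : ℝ) - 1)) := by
  have hK : (1 : ℝ) ≤ (k : ℝ) - 1 := by
    have : (2 : ℝ) ≤ k := by exact_mod_cast hk
    linarith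
  have hc : ((k - 1 : ℕ) : ℝ) = (k : ℝ) - 1 := by
    rw [Nat.cast_sub (by omega)]; simp
  rw [card_aps hk, Nat.cast_sum]
  calc ∑ m ∈ range n, ((m / (k - 1) : ℕ) : ℝ) ≤ ∑ m ∈ range n, (m : ℝ) / ((k : ℝ) - 1) := by
        refine sum_le_sum fun m _ => ?_
        rw [← hc]; exact Nat.cast_div_le
    _ = n * (n - 1) / 2 / ((k : ℝ) - 1) := by rw [← sum_div, sum_range_cast]
    _ ≤ (n : ℝ) ^ 2 / (2 * ((k : ℝ) - 1)) := by
        rw [div_div]
        refine div_le_div_of_nonneg_right ?_ (by linarith)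
        have : (0 : ℝ) ≤ n := Nat.cast_nonneg n
        nlinarith

theorem le_card_aps {k : ℕ} (hk : 2 ≤ k) (n : ℕ) :
    (n : ℝ) ^ 2 / (2 * ((k : ℝ) - 1)) - 2 * n ≤ ((aps k n).card : ℝ) := by
  have hK : (1 : ℝ) ≤ (k : ℝ) - 1 := by
    have : (2 : ℝ) ≤ k := by exact_mod_cast hk
    linarith
  have hc : ((k - 1 : ℕ) : ℝ) = (k : ℝ) - 1 := by
    rw [Nat.cast_sub (by omega)]; simp
  have hn : (0 : ℝ) ≤ n := Nat.cast_nonneg n
  rw [card_aps hk, Nat.cast_sum]
  calc (n : ℝ) ^ 2 / (2 * ((k : ℝ) - 1)) - 2 * n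
      ≤ n * (n - 1) / 2 / ((k : ℝ) - 1) - n := by
        rw [div_div]
        have h1 : (n : ℝ) ^ 2 / (2 * ((k : ℝ) - 1)) =
            n * (n - 1) / (2 * ((k : ℝ) - 1)) + n / (2 * ((k : ℝ) - 1)) := by
          rw [← add_div]; congr 1; ring
        have h2 : (n : ℝ) / (2 * ((k : ℝ) - 1)) ≤ n := div_le_self hn (by linarith)
        linarith
    _ = ∑ m ∈ range n, ((m : ℝ) / ((k : ℝ) - 1) - 1) := by
        rw [sum_sub_distrib, ← sum_div, sum_range_cast]; simp
    _ ≤ ∑ m ∈ range n, ((m / (k - 1) : ℕ) : ℝ) := by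
        refine sum_le_sum fun m _ => ?_
        have h1 : m < (m / (k - 1) + 1) * (k - 1) := by
          have := Nat.lt_div_mul_add (a := m) (b := k - 1) (by omega)
          nlinarith
        have h2 : (m : ℝ) < (((m / (k - 1) : ℕ) : ℝ) + 1) * ((k : ℝ) - 1) := by
          rw [← hc]; exact_mod_cast h1
        rw [sub_le_iff_le_add, div_le_iff₀ (by linarith)]
        exact h2.le

theorem card_through {k : ℕ} (hk : 2 ≤ k) (n x : ℕ) :
    ((aps k n).filter (fun p => ∃ j < k, p.1 + j * p.2 = x)).card ≤ k * n := by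
  have hsub : (aps k n).filter (fun p => ∃ j < k, p.1 + j * p.2 = x) ⊆
      (range k ×ˢ Icc 1 n).image (fun q : ℕ × ℕ => (x - q.1 * q.2, q.2)) := by
    intro p hp
    rw [mem_filter, mem_aps hk] at hp
    obtain ⟨⟨h1, h2, h3⟩, j, hj, hx⟩ := hp
    have : p.2 ≤ (k - 1) * p.2 := Nat.le_mul_of_pos_left _ (by omega)
    refine mem_image.2 ⟨(j, p.2), ?_, ?_⟩
    · rw [mem_product, mem_range, mem_Icc]; exact ⟨hj, h2, by simp only; omega⟩
    · exact Prod.ext (by simp only; omega) rfl
  refine (card_le_card hsub).trans (card_image_le.trans ?_)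
  simp

theorem mono_step {r k : ℕ} (hk : 2 ≤ k) (n x : ℕ) (χ ψ : ℕ → Fin r)
    (h : ∀ y, y ≠ x → χ y = ψ y) : monoCount k n χ ≤ monoCount k n ψ + k * n := by
  refine le_trans ?_ (Nat.add_le_add_left (card_through hk n x) _)
  unfold monoCount
  refine le_trans (card_le_card ?_) (card_union_le _ _)
  intro p hp
  rw [mem_filter] at hp
  rw [mem_union, mem_filter, mem_filter]
  by_cases hx : ∃ j < k, p.1 + j * p.2 = x
  · exact Or.inr ⟨hp.1, hx⟩
  · refine Or.inl ⟨hp.1, fun j hj => ?_⟩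
    push Not at hx
    have h0 := hx 0 (by omega)
    simp only [zero_mul, add_zero] at h0
    rw [← h _ (hx j hj), ← h _ h0]
    exact hp.2 j hj

theorem interp (f : ℕ → ℝ) (B B' T : ℝ) (hB : 0 ≤ B) (hB' : 0 ≤ B')
    (hs : ∀ s, f (s + 1) ≤ f s + B)
    (h0 : f 0 ≤ T + B') (N : ℕ) (hN : T - B' ≤ f N) : ∃ s, |f s - T| ≤ B + B' := by
  classical
  have hex : ∃ s, T - B' ≤ f s := ⟨N, hN⟩
  refine ⟨Nat.find hex, ?_⟩
  have h1 := Nat.find_spec hex
  rw [abs_le]
  refine ⟨by linarith, ?_⟩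
  rcases h : Nat.find hex with _ | s
  · linarith
  · have h2 := Nat.find_min hex (m := s) (by omega)
    have h3 := hs s
    push Not at h2
    linarith

/-- From a colouring with few progressions to one with the prescribed number, up to `O(n)`. -/
theorem exact_count {r k : ℕ} (hk : 2 ≤ k) (n : ℕ) (δ C : ℝ) (hC : 0 ≤ C)
    (hδ : δ ≤ 1 / (2 * ((k : ℝ) - 1))) (χ : ℕ → Fin r)
    (hχ : (monoCount k n χ : ℝ) ≤ δ * (n : ℝ) ^ 2 + C * n) :
    ∃ ψ : ℕ → Fin r, |(monoCount k n ψ : ℝ) - δ * (n : ℝ) ^ 2| ≤ (k + C + 2) * n := by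
  have hn : (0 : ℝ) ≤ n := Nat.cast_nonneg n
  let g : ℕ → ℕ → Fin r := fun s x => if x < s then χ 0 else χ x
  obtain ⟨s, hs⟩ := interp (fun s => (monoCount k n (g s) : ℝ)) (k * n) ((C + 2) * n)
    (δ * (n : ℝ) ^ 2) (by positivity) (by positivity) (fun s => by
      have := mono_step hk n s (g (s + 1)) (g s) (fun y hy => by
        simp only [g]
        by_cases h : y < s
        · rw [if_pos h, if_pos (by omega)]
        · rw [if_neg h, if_neg (by omega)])
      exact_mod_cast this) (by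
      have : g 0 = χ := by funext x; simp [g]
      simp only [this]
      nlinarith) (n + 1) (by
      have h1 : monoCount k n (g (n + 1)) = (aps k n).card := by
        unfold monoCount
        rw [filter_true_of_mem]
        intro p hp j hj
        rw [mem_aps hk] at hp
        have : j * p.2 ≤ (k - 1) * p.2 := Nat.mul_le_mul_right _ (by omega)
        simp only [g]
        rw [if_pos (by omega), if_pos (by omega)]
      simp only [h1]
      have h2 := le_card_aps hk n
      have h3 : δ * (n : ℝ) ^ 2 ≤ (n : ℝ) ^ 2 / (2 * ((k : ℝ) - 1)) := by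
        calc δ * (n : ℝ) ^ 2 ≤ 1 / (2 * ((k : ℝ) - 1)) * (n : ℝ) ^ 2 :=
              mul_le_mul_of_nonneg_right hδ (by positivity)
          _ = _ := by ring
      nlinarith)
  exact ⟨g s, by linarith⟩

/-- The expected number of monochromatic progressions. -/
noncomputable def expect {r : ℕ} (k n : ℕ) (ρ : ℕ → Fin r → ℝ) : ℝ :=
  ∑ p ∈ aps k n, ∑ i, ∏ j ∈ range k, ρ (p.1 + j * p.2) i

theorem expect_affine {r k : ℕ} (hk : 2 ≤ k) (n x : ℕ) (ρ : ℕ → Fin r → ℝ)
    (h1 : ∑ c, ρ x c = 1) :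
    ∑ c, ρ x c * expect k n (Function.update ρ x (fun i => if i = c then 1 else 0)) =
      expect k n ρ := by
  unfold expect
  simp only [mul_sum]
  rw [sum_comm]
  refine sum_congr rfl fun p hp => ?_
  rw [sum_comm]
  refine sum_congr rfl fun i _ => ?_
  rw [mem_aps hk] at hp
  by_cases hx : ∃ j ∈ range k, p.1 + j * p.2 = x
  · obtain ⟨j0, hj0, hx⟩ := hx
    have hne : ∀ j ∈ (range k).erase j0, p.1 + j * p.2 ≠ x := by
      intro j hj h
      have hj' := (mem_erase.1 hj).1
      apply hj'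
      have : j * p.2 = j0 * p.2 := by omega
      exact Nat.eq_of_mul_eq_mul_right (by omega) this
    have : ∀ c : Fin r, ∏ j ∈ range k,
        Function.update ρ x (fun i => if i = c then (1 : ℝ) else 0) (p.1 + j * p.2) i =
        (if i = c then (1 : ℝ) else 0) * ∏ j ∈ (range k).erase j0, ρ (p.1 + j * p.2) i := by
      intro c
      rw [← mul_prod_erase _ _ hj0, hx, Function.update_self]
      congr 1
      exact prod_congr rfl fun j hj => by rw [Function.update_of_ne (hne j hj)]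
    simp only [this]
    rw [← mul_prod_erase _ _ hj0, hx]
    rw [sum_eq_single i]
    · simp
    · intro c _ hc
      rw [if_neg (Ne.symm hc)]; simp
    · simp
  · push Not at hx
    have : ∀ c : Fin r, ∏ j ∈ range k,
        Function.update ρ x (fun i => if i = c then (1 : ℝ) else 0) (p.1 + j * p.2) i =
        ∏ j ∈ range k, ρ (p.1 + j * p.2) i := fun c =>
      prod_congr rfl fun j hj => by rw [Function.update_of_ne (hx j hj)]
    simp only [this]
    rw [← sum_mul, h1, one_mul]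

theorem exists_colouring {r k : ℕ} (hk : 2 ≤ k) (hr : 0 < r) (n : ℕ) (ρ : ℕ → Fin r → ℝ)
    (h0 : ∀ x c, 0 ≤ ρ x c) (h1 : ∀ x, ∑ c, ρ x c = 1) :
    ∃ χ : ℕ → Fin r, (monoCount k n χ : ℝ) ≤ expect k n ρ := by
  let mix : (ℕ → Fin r) → ℕ → ℕ → Fin r → ℝ := fun χ m x i =>
    if x < m then (if i = χ x then 1 else 0) else ρ x i
  have key : ∀ m, ∃ χ : ℕ → Fin r, expect k n (mix χ m) ≤ expect k n ρ := by
    intro m
    induction m with
    | zero =>
      refine ⟨fun _ => ⟨0, hr⟩, le_of_eq ?_⟩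
      congr 1
    | succ m ih =>
      obtain ⟨χ, hχ⟩ := ih
      have hm : mix χ m m = ρ m := by funext i; simp [mix]
      have ha := expect_affine hk n m (mix χ m) (by rw [hm]; exact h1 m)
      rw [hm] at ha
      obtain ⟨c, _, hc⟩ := exists_min_image univ (fun c : Fin r =>
        expect k n (Function.update (mix χ m) m (fun i => if i = c then 1 else 0)))
        ⟨⟨0, hr⟩, mem_univ _⟩
      refine ⟨Function.update χ m c, le_trans ?_ hχ⟩
      have he : mix (Function.update χ m c) (m + 1) =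
          Function.update (mix χ m) m (fun i => if i = c then 1 else 0) := by
        funext x i
        by_cases hx : x = m
        · subst hx; simp [mix]
        · rw [Function.update_of_ne hx]
          simp only [mix, Function.update_of_ne hx]
          by_cases h : x < m
          · rw [if_pos h, if_pos (by omega)]
          · rw [if_neg h, if_neg (by omega)]
      rw [he, ← ha]
      calc expect k n (Function.update (mix χ m) m (fun i => if i = c then 1 else 0))
          = ∑ c', ρ m c' *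
            expect k n (Function.update (mix χ m) m (fun i => if i = c then 1 else 0)) := by
            rw [← sum_mul, h1, one_mul]
        _ ≤ _ := sum_le_sum fun c' _ => mul_le_mul_of_nonneg_left (hc c' (mem_univ _)) (h0 _ _)
  obtain ⟨χ, hχ⟩ := key (n + 1)
  refine ⟨χ, le_trans ?_ hχ⟩
  unfold monoCount expect
  rw [card_filter, Nat.cast_sum]
  refine sum_le_sum fun p hp => ?_
  rw [mem_aps hk] at hp
  have hnn : ∀ i, 0 ≤ ∏ j ∈ range k, mix χ (n + 1) (p.1 + j * p.2) i := fun i =>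
    prod_nonneg fun j _ => by
      simp only [mix]
      split_ifs
      · exact zero_le_one
      · exact le_rfl
      · exact h0 _ _
  split_ifs with hm
  · refine le_trans ?_ (single_le_sum (fun i _ => hnn i) (mem_univ (χ p.1)))
    rw [prod_eq_one]
    · simp
    · intro j hj
      have hj' := mem_range.1 hj
      have : j * p.2 ≤ (k - 1) * p.2 := Nat.mul_le_mul_right _ (by omega)
      simp only [mix]
      rw [if_pos (by omega), if_pos (hm j hj').symm]
  · simpa using sum_nonneg fun i _ => hnn i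

end Pool.Agent.H273Z.AP
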