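import Pool.Agent.H273Z.AP.Neg

set_option autoImplicit false

namespace Pool.Agent.H273Z.AP

open Finset

theorem ind_zero {k n j t u v : ℕ} (hk : 2 ≤ k) (h : v ≤ u) (ht : 1 ≤ t) :
    ind k n j (j + t) u v = 0 := by
  unfold ind
  rw [if_neg]
  intro hp
  obtain ⟨a, d, _, hd, _, _, h5⟩ := hp.spec hk
  have : 1 ≤ t * d := Nat.mul_pos ht hd
  omega

theorem pair_le {k n j t α β W D N : ℕ} (hk : 2 ≤ k) (ht : 1 ≤ t) (hjt : j + t < k) (hD : t ∣ D)
    (hW : W ≤ D) (hα : k * (D + W) < α) (hβ : α + D + W ≤ β)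
    (hn : ∀ x < W, α + x + k * (D + W) ≤ n) :
    ∑ p ∈ aps k n, hfun α β W D N (p.1 + j * p.2) * hfun α β W D N (p.1 + (j + t) * p.2) ≤
      (N : ℝ) ^ 2 + (∑ x ∈ range W, ∑ y ∈ range N, ind k n j (j + t) (α + x) (β + y) -
        ∑ x ∈ range W, ∑ y ∈ range N, ind k n j (j + t) (α + D + x) (β + y)) := by
  obtain ⟨E, rfl⟩ := hD
  rw [pair_sum (by omega)]
  have z1 : ∑ x ∈ range W, ∑ y ∈ range W, ind k n j (j + t) (α + t * E + x) (α + y) = 0 :=
    sum_eq_zero fun x _ => sum_eq_zero fun y hy =>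
      ind_zero hk (by have := mem_range.1 hy; omega) ht
  have z2 : ∑ x ∈ range N, ∑ y ∈ range W, ind k n j (j + t) (β + x) (α + y) = 0 :=
    sum_eq_zero fun x _ => sum_eq_zero fun y hy =>
      ind_zero hk (by have := mem_range.1 hy; omega) ht
  have z3 : ∑ x ∈ range N, ∑ y ∈ range W, ind k n j (j + t) (β + x) (α + t * E + y) = 0 :=
    sum_eq_zero fun x _ => sum_eq_zero fun y hy =>
      ind_zero hk (by have := mem_range.1 hy; omega) ht
  have z4 : ∑ x ∈ range N, ∑ y ∈ range N, ind k n j (j + t) (β + x) (β + y) ≤ (N : ℝ) ^ 2 := by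
    refine (sum_le_sum fun x _ => sum_le_sum fun y _ => ind_le _ _ _ _ _ _).trans ?_
    simp [sq]
  have z5 : ∑ x ∈ range W, ∑ y ∈ range W, ind k n j (j + t) (α + x) (α + y) +
      ∑ x ∈ range W, ∑ y ∈ range W, ind k n j (j + t) (α + t * E + x) (α + t * E + y) ≤
      ∑ x ∈ range W, ∑ y ∈ range W, ind k n j (j + t) (α + x) (α + t * E + y) := by
    rw [sum_comm (f := fun x y => ind k n j (j + t) (α + t * E + x) (α + t * E + y)),
      ← sum_add_distrib]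
    refine sum_le_sum fun x hx => ?_
    rw [← sum_add_distrib]
    refine sum_le_sum fun y hy => ?_
    have hx' := mem_range.1 hx
    have hy' := mem_range.1 hy
    by_cases hxy : x ≤ y
    · rw [ind_zero (u := α + t * E + y) hk (by omega) ht, add_zero]
      refine ind_mono fun hp => ?_
      obtain ⟨a, d, _, hd, _, _, h5⟩ := hp.spec hk
      refine Pr.fit (d := d + E) (M := t * E + W) hk (by omega) ht (by omega) ?_ (by omega)
        (by omega) (hn x hx')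
      rw [mul_add]; omega
    · rw [ind_zero (u := α + x) hk (by omega) ht, zero_add]
      refine ind_mono fun hp => ?_
      obtain ⟨a, d, _, hd, _, _, h5⟩ := hp.spec hk
      have hdE : d < E := by
        refine Nat.lt_of_mul_lt_mul_left (a := t) ?_
        omega
      obtain ⟨e, rfl⟩ := Nat.exists_eq_add_of_lt hdE
      refine Pr.fit (d := e + 1) (M := t * (d + e + 1) + W) hk (by omega) ht (by omega) ?_
        (by omega) (by omega) (hn x hx')
      have : t * (d + e + 1) = t * d + t * (e + 1) := by ring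
      omega
  rw [z1, z2, z3]
  linarith

theorem cross_le {k n j t α β W D N : ℕ} (hk : 2 ≤ k) (hjt : j + t < k) (hD : t ∣ D)
    (hβ : α + D + W ≤ β) :
    ∑ x ∈ range W, ∑ y ∈ range N, ind k n j (j + t) (α + x) (β + y) ≤
      ∑ x ∈ range W, ∑ y ∈ range N, ind k n j (j + t) (α + D + x) (β + y) := by
  obtain ⟨E, rfl⟩ := hD
  refine sum_le_sum fun x hx => sum_le_sum fun y _ => ind_mono fun hp => ?_
  have hx' := mem_range.1 hx
  obtain ⟨a, d, ha, hd, h3, h4, h5⟩ := hp.spec hk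
  have hdE : E < d := by
    refine Nat.lt_of_mul_lt_mul_left (a := t) ?_
    omega
  obtain ⟨e, rfl⟩ := Nat.exists_eq_add_of_lt hdE
  refine Pr.mk' hk (a + (j + t) * E) (e + 1) (by omega) (by omega) ?_ ?_ ?_
  · have h6 : (j + t) * E ≤ (k - 1) * E := Nat.mul_le_mul_right _ (by omega)
    have h7 : (k - 1) * (E + e + 1) = (k - 1) * E + (k - 1) * (e + 1) := by ring
    omega
  · have h6 : a + (j + t) * E + j * (e + 1) = a + j * (E + e + 1) + t * E := by ring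
    omega
  · have h6 : t * (E + e + 1) = t * E + t * (e + 1) := by ring
    omega

theorem cross_special {k n α β W D N : ℕ} (hk : 2 ≤ k) (hβ : α + D + W ≤ β)
    (h1 : 2 * (α + W) ≤ β + 2) (h2 : β + N ≤ 2 * (α + D)) (h3 : ∀ y < N, k * (β + y) ≤ n) :
    ∑ x ∈ range W, ∑ y ∈ range N, ind k n 1 (1 + 1) (α + x) (β + y) -
      ∑ x ∈ range W, ∑ y ∈ range N, ind k n 1 (1 + 1) (α + D + x) (β + y) = -(W * N : ℝ) := by
  have a1 : ∑ x ∈ range W, ∑ y ∈ range N, ind k n 1 (1 + 1) (α + x) (β + y) = 0 := by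
    refine sum_eq_zero fun x hx => sum_eq_zero fun y _ => ?_
    have hx' := mem_range.1 hx
    unfold ind
    rw [if_neg]
    intro hp
    obtain ⟨a, d, ha, hd, _, h4, h5⟩ := hp.spec hk
    omega
  have a2 : ∑ x ∈ range W, ∑ y ∈ range N, ind k n 1 (1 + 1) (α + D + x) (β + y) =
      ∑ _x ∈ range W, ∑ _y ∈ range N, (1 : ℝ) := by
    refine sum_congr rfl fun x hx => sum_congr rfl fun y hy => ?_
    have hx' := mem_range.1 hx
    have hy' := mem_range.1 hy
    unfold ind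
    rw [if_pos]
    refine Pr.mk' hk (2 * (α + D + x) - (β + y)) (β + y - (α + D + x)) (by omega) (by omega) ?_
      (by omega) (by omega)
    have h4 := h3 y hy'
    have h5 : (k - 1) * (β + y - (α + D + x)) ≤ (k - 1) * (β + y) :=
      Nat.mul_le_mul_left _ (by omega)
    have h6 : k * (β + y) = (k - 1) * (β + y) + (β + y) := by
      obtain ⟨m, rfl⟩ : ∃ m, k = m + 1 := ⟨k - 1, by omega⟩
      simp [add_mul]
    omega
  rw [a1, a2]
  simp

theorem exists_negative {k : ℕ} (hk : 3 ≤ k) : ∃ γ C : ℝ, 0 < γ ∧ 0 ≤ C ∧ ∀ n : ℕ, ∃ h : ℕ → ℝ,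
    (∀ x, |h x| ≤ 1) ∧
      ∑ p ∈ aps k n, e2 k (fun j => h (p.1 + j * p.2)) ≤ -γ * (n : ℝ) ^ 2 + C * n := by
  have hk2 : 2 ≤ k := by omega
  set w := k ^ 2 + 1 with hw
  set B := k * (2 * w + 1) with hB
  set L := k * (2 * B + 2 * w + 1) with hL
  set F := k.factorial with hF
  have hF0 : 0 < F := Nat.factorial_pos k
  have hB1 : 1 ≤ B := Nat.mul_pos (by omega) (by omega)
  have hL0 : 0 < L := Nat.mul_pos (by omega) (by omega)
  have hLr : (0 : ℝ) < L := by exact_mod_cast hL0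
  refine ⟨1 / (L : ℝ) ^ 2, 2 * F / L, by positivity, by positivity, fun n => ?_⟩
  set N := F * (n / (L * F)) with hN
  have hLN : L * N ≤ n := by
    rw [hN, ← mul_assoc]; exact Nat.mul_div_le n (L * F)
  have hnN : n ≤ L * N + L * F := by
    have := Nat.lt_div_mul_add (a := n) (b := L * F) (Nat.mul_pos hL0 hF0)
    have h2 : L * N = n / (L * F) * (L * F) := by rw [hN]; ring
    omega
  have hBN : N ≤ B * N := Nat.le_mul_of_pos_left _ hB1
  have hβ : B * N + 1 + (w + 1) * N + w * N ≤ 2 * (B + w) * N + 1 := by nlinarith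
  have hW : w * N ≤ (w + 1) * N := by nlinarith
  have hkB : k * ((w + 1) * N + w * N) = B * N := by rw [hB]; ring
  have hLk : (2 * B + 2 * w + 1) * N ≤ L * N := by
    refine Nat.mul_le_mul_right _ ?_
    rw [hL]; exact Nat.le_mul_of_pos_left _ (by omega)
  refine ⟨hfun (B * N + 1) (2 * (B + w) * N + 1) (w * N) ((w + 1) * N) N,
    abs_hfun hW hβ, ?_⟩
  set h := hfun (B * N + 1) (2 * (B + w) * N + 1) (w * N) ((w + 1) * N) N with hh
  have hpair : ∀ j' ∈ range k, ∀ j ∈ range j',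
      ∑ p ∈ aps k n, h (p.1 + j * p.2) * h (p.1 + j' * p.2) ≤
        (N : ℝ) ^ 2 - if j = 1 ∧ j' = 2 then ((w * N : ℕ) * N : ℝ) else 0 := by
    intro j' hj' j hj
    have h1 := mem_range.1 hj'
    have h2 := mem_range.1 hj
    obtain ⟨t, rfl⟩ : ∃ t, j' = j + t := ⟨j' - j, by omega⟩
    have hD : t ∣ (w + 1) * N :=
      Dvd.dvd.mul_left (Dvd.dvd.mul_right (Nat.dvd_factorial (by omega) (by omega)) _) _
    have hp := pair_le (n := n) (N := N) hk2 (by omega : 1 ≤ t) h1 hD hW (by omega) hβ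
      (fun x hx => by nlinarith)
    refine hp.trans ?_
    split_ifs with hs
    · obtain ⟨rfl, ht⟩ := hs
      obtain rfl : t = 1 := by omega
      rw [cross_special hk2 hβ (by nlinarith) (by nlinarith) (fun y hy => by
        refine le_trans ?_ hLN
        rw [hL, mul_assoc k]
        refine Nat.mul_le_mul_left _ ?_
        nlinarith)]
      linarith
    · have := cross_le (n := n) (N := N) hk2 h1 hD hβ
      linarith
  have hQ : ∑ p ∈ aps k n, e2 k (fun j => h (p.1 + j * p.2)) ≤ -(N : ℝ) ^ 2 := by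
    unfold e2
    rw [sum_comm]
    have h1 : ∀ j' ∈ range k, ∑ p ∈ aps k n, ∑ j ∈ range j', h (p.1 + j * p.2) * h (p.1 + j' * p.2)
        ≤ k * (N : ℝ) ^ 2 - if j' = 2 then ((w * N : ℕ) * N : ℝ) else 0 := by
      intro j' hj'
      rw [sum_comm]
      refine (sum_le_sum (hpair j' hj')).trans ?_
      rw [sum_sub_distrib]
      have h2 : ∑ _j ∈ range j', (N : ℝ) ^ 2 ≤ k * (N : ℝ) ^ 2 := by
        rw [sum_const, card_range, nsmul_eq_mul]
        refine mul_le_mul_of_nonneg_right ?_ (by positivity)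
        exact_mod_cast (mem_range.1 hj').le
      have h3 : ∑ j ∈ range j', (if j = 1 ∧ j' = 2 then ((w * N : ℕ) * N : ℝ) else 0) =
          if j' = 2 then ((w * N : ℕ) * N : ℝ) else 0 := by
        split_ifs with h4
        · subst h4
          simp [sum_range_succ]
        · simp [h4]
      rw [h3]
      linarith
    refine (sum_le_sum h1).trans ?_
    rw [sum_sub_distrib, sum_ite_eq', if_pos (mem_range.2 (by omega)), sum_const, card_range,
      nsmul_eq_mul, hw]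
    push_cast
    nlinarith
  refine hQ.trans ?_
  have h1 : (n : ℝ) ≤ L * N + L * F := by exact_mod_cast hnN
  have h2 : (L : ℝ) * N ≤ n := by exact_mod_cast hLN
  have hN0 : (0 : ℝ) ≤ N := Nat.cast_nonneg N
  have hFr : (0 : ℝ) ≤ F := Nat.cast_nonneg F
  have hn0 : (0 : ℝ) ≤ n := Nat.cast_nonneg n
  have h3 : (n : ℝ) ^ 2 ≤ (L * N) ^ 2 + 2 * (L * F) * n := by
    have h4 : (0 : ℝ) ≤ L * N := by positivity
    have h5 : (0 : ℝ) ≤ L * F := by positivity
    nlinarith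
  have h6 : -(1 / (L : ℝ) ^ 2) * (n : ℝ) ^ 2 + 2 * F / L * n + (N : ℝ) ^ 2 =
      ((L * N) ^ 2 + 2 * (L * F) * n - (n : ℝ) ^ 2) / (L : ℝ) ^ 2 := by
    field_simp
    ring
  have h7 : 0 ≤ ((L * N) ^ 2 + 2 * (L * F) * n - (n : ℝ) ^ 2) / (L : ℝ) ^ 2 :=
    div_nonneg (by linarith) (by positivity)
  linarith

theorem beat {k r : ℕ} (hk : 3 ≤ k) (hr : 2 ≤ r) :
    ∃ δ : ℝ, δ < 1 / (2 * ((k : ℝ) - 1) * (r : ℝ) ^ (k - 1)) ∧ ∃ C : ℝ, 0 ≤ C ∧ ∀ n : ℕ,
      ∃ χ : ℕ → Fin r, (monoCount k n χ : ℝ) ≤ δ * (n : ℝ) ^ 2 + C * n := by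
  have hk2 : 2 ≤ k := by omega
  obtain ⟨γ, C, hγ, hC, hneg⟩ := exists_negative hk
  obtain ⟨c, hc0, hc⟩ := expand_pair k
  obtain ⟨s, rfl⟩ : ∃ s, r = s + 2 := ⟨r - 2, by omega⟩
  set R : ℝ := ((s + 2 : ℕ) : ℝ) with hR
  have hRs : R = s + 2 := by rw [hR]; push_cast; ring
  have hR0 : 0 < R := by rw [hRs]; positivity
  have hK : (1 : ℝ) ≤ (k : ℝ) - 1 := by
    have : (2 : ℝ) ≤ k := by exact_mod_cast hk2
    linarith
  set ε : ℝ := min 1 (γ / (c + 1)) with hε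
  have hε0 : 0 < ε := lt_min one_pos (by positivity)
  have hε1 : ε ≤ 1 := min_le_left _ _
  have hεc : c * ε ≤ γ := by
    have h1 : ε ≤ γ / (c + 1) := min_le_right _ _
    rw [le_div_iff₀ (by positivity)] at h1
    nlinarith
  refine ⟨1 / (2 * ((k : ℝ) - 1) * R ^ (k - 1)) - γ * ε ^ 2 / R ^ k,
    by have : 0 < γ * ε ^ 2 / R ^ k := by positivity
       linarith, 2 * ε ^ 2 * C / R ^ k, by positivity, fun n => ?_⟩
  obtain ⟨h, hh, hQ⟩ := hneg n
  let ρ : ℕ → Fin (s + 2) → ℝ := fun x =>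
    Fin.cons ((1 + ε * h x) / R) (Fin.cons ((1 - ε * h x) / R) (fun _ => 1 / R))
  have hb : ∀ x, |ε * h x| ≤ 1 := fun x => by
    rw [abs_mul, abs_of_pos hε0]; exact mul_le_one₀ hε1 (abs_nonneg _) (hh x)
  obtain ⟨χ, hχ⟩ := exists_colouring hk2 (by omega) n ρ (fun x i => by
    have := abs_le.1 (hb x)
    refine Fin.cases ?_ (fun i => Fin.cases ?_ (fun i => ?_) i) i
    · simp only [ρ, Fin.cons_zero]; exact div_nonneg (by linarith) hR0.le
    · simp only [ρ, Fin.cons_succ, Fin.cons_zero]; exact div_nonneg (by linarith) hR0.le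
    · simp only [ρ, Fin.cons_succ]; positivity) (fun x => by
    rw [Fin.sum_univ_succ, Fin.sum_univ_succ]
    simp only [ρ, Fin.cons_succ, Fin.cons_zero, sum_const, card_univ, Fintype.card_fin,
      nsmul_eq_mul]
    field_simp
    rw [hRs]; ring)
  refine ⟨χ, hχ.trans ?_⟩
  unfold expect
  have hterm : ∀ p : ℕ × ℕ, ∑ i, ∏ j ∈ range k, ρ (p.1 + j * p.2) i ≤
      (R + c * ε ^ 3) / R ^ k + 2 * ε ^ 2 / R ^ k * e2 k (fun j => h (p.1 + j * p.2)) := by
    intro p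
    rw [Fin.sum_univ_succ, Fin.sum_univ_succ]
    simp only [ρ, Fin.cons_succ, Fin.cons_zero, sum_const, card_univ, Fintype.card_fin,
      nsmul_eq_mul, prod_div_distrib, prod_const, card_range, one_pow]
    have h1 := hc (fun j => h (p.1 + j * p.2)) (fun j => hh _) ε hε0.le hε1
    have h2 : (0 : ℝ) < R ^ k := by positivity
    rw [← sub_nonneg]
    have h3 : (R + c * ε ^ 3) / R ^ k + 2 * ε ^ 2 / R ^ k * e2 k (fun j => h (p.1 + j * p.2)) -
        ((∏ j ∈ range k, (1 + ε * h (p.1 + j * p.2))) / R ^ k +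
          ((∏ j ∈ range k, (1 - ε * h (p.1 + j * p.2))) / R ^ k + s * (1 / R ^ k))) =
        (R - s + c * ε ^ 3 + 2 * ε ^ 2 * e2 k (fun j => h (p.1 + j * p.2)) -
          (∏ j ∈ range k, (1 + ε * h (p.1 + j * p.2)) +
            ∏ j ∈ range k, (1 - ε * h (p.1 + j * p.2)))) / R ^ k := by
      field_simp
      ring
    rw [h3]
    refine div_nonneg ?_ h2.le
    have : R - s = 2 := by rw [hRs]; ring
    rw [this]
    linarith
  refine (sum_le_sum fun p _ => hterm p).trans ?_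
  rw [sum_add_distrib, sum_const, nsmul_eq_mul, ← mul_sum]
  have h1 := card_aps_le hk2 n
  have h2 : (0 : ℝ) < R ^ k := by positivity
  have hn2 : (0 : ℝ) ≤ (n : ℝ) ^ 2 := by positivity
  have h3 : ((aps k n).card : ℝ) * ((R + c * ε ^ 3) / R ^ k) ≤
      (n : ℝ) ^ 2 / (2 * ((k : ℝ) - 1)) * ((R + c * ε ^ 3) / R ^ k) :=
    mul_le_mul_of_nonneg_right h1 (by positivity)
  have h4 : 2 * ε ^ 2 / R ^ k * ∑ p ∈ aps k n, e2 k (fun j => h (p.1 + j * p.2)) ≤
      2 * ε ^ 2 / R ^ k * (-γ * (n : ℝ) ^ 2 + C * n) :=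
    mul_le_mul_of_nonneg_left hQ (by positivity)
  have hRk : R ^ k = R * R ^ (k - 1) := by
    rw [← pow_succ']; congr 1; omega
  have h5 : (n : ℝ) ^ 2 / (2 * ((k : ℝ) - 1)) * ((R + c * ε ^ 3) / R ^ k) =
      1 / (2 * ((k : ℝ) - 1) * R ^ (k - 1)) * (n : ℝ) ^ 2 +
        (n : ℝ) ^ 2 / (2 * ((k : ℝ) - 1)) * (c * ε * (ε ^ 2 / R ^ k)) := by
    have : (k : ℝ) - 1 ≠ 0 := by linarith
    rw [hRk]
    field_simp
  have h6 : (n : ℝ) ^ 2 / (2 * ((k : ℝ) - 1)) * (c * ε * (ε ^ 2 / R ^ k)) ≤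
      (n : ℝ) ^ 2 * (γ * (ε ^ 2 / R ^ k)) := by
    refine mul_le_mul (div_le_self hn2 (by linarith)) ?_ (by positivity) hn2
    exact mul_le_mul_of_nonneg_right hεc (by positivity)
  have h7 : 2 * ε ^ 2 / R ^ k * (-γ * (n : ℝ) ^ 2 + C * n) =
      -2 * ((n : ℝ) ^ 2 * (γ * (ε ^ 2 / R ^ k))) + 2 * ε ^ 2 * C / R ^ k * n := by ring
  have h8 : (1 / (2 * ((k : ℝ) - 1) * R ^ (k - 1)) - γ * ε ^ 2 / R ^ k) * (n : ℝ) ^ 2 =
      1 / (2 * ((k : ℝ) - 1) * R ^ (k - 1)) * (n : ℝ) ^ 2 -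
        (n : ℝ) ^ 2 * (γ * (ε ^ 2 / R ^ k)) := by ring
  linarith

theorem main {k r : ℕ} (hk : 3 ≤ k) (hr : 2 ≤ r) :
    ∃ δ : ℝ, δ < 1 / (2 * ((k : ℝ) - 1) * (r : ℝ) ^ (k - 1)) ∧
      ∃ (χ : ℕ → ℕ → Fin r) (C : ℝ), ∀ n : ℕ,
        |(monoCount k n (χ n) : ℝ) - δ * (n : ℝ) ^ 2| ≤ C * n := by
  obtain ⟨δ, hδ, C, hC, h⟩ := beat hk hr
  have hK : (1 : ℝ) ≤ (k : ℝ) - 1 := by
    have : (3 : ℝ) ≤ k := by exact_mod_cast hk
    linarith
  have hr1 : (1 : ℝ) ≤ (r : ℝ) ^ (k - 1) := one_le_pow₀ (by exact_mod_cast (by omega : 1 ≤ r))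
  have hδ' : δ ≤ 1 / (2 * ((k : ℝ) - 1)) := by
    refine hδ.le.trans (one_div_le_one_div_of_le (by linarith) ?_)
    nlinarith
  have key : ∀ n : ℕ, ∃ ψ : ℕ → Fin r,
      |(monoCount k n ψ : ℝ) - δ * (n : ℝ) ^ 2| ≤ (k + C + 2) * n := fun n => by
    obtain ⟨χ, hχ⟩ := h n
    exact exact_count (by omega) n δ C hC hδ' χ hχ
  choose χ hχ using key
  exact ⟨δ, hδ, χ, _, hχ⟩

end Pool.Agent.H273Z.AP
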