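import Pool.Agent.H273Z.AP.Basic

set_option autoImplicit false

namespace Pool.Agent.H273Z.AP

open Finset

/-- Second elementary symmetric sum. -/
noncomputable def e2 (k : ℕ) (h : ℕ → ℝ) : ℝ := ∑ j' ∈ range k, ∑ j ∈ range j', h j * h j'

theorem abs_sum_le (k : ℕ) (h : ℕ → ℝ) (hh : ∀ j, |h j| ≤ 1) : |∑ j ∈ range k, h j| ≤ k := by
  refine (abs_sum_le_sum_abs _ _).trans ?_
  refine (sum_le_sum fun j _ => hh j).trans ?_
  simp

theorem abs_e2_le (k : ℕ) (h : ℕ → ℝ) (hh : ∀ j, |h j| ≤ 1) : |e2 k h| ≤ (k : ℝ) ^ 2 := by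
  unfold e2
  refine (abs_sum_le_sum_abs _ _).trans ?_
  calc ∑ j' ∈ range k, |∑ j ∈ range j', h j * h j'| ≤ ∑ _j' ∈ range k, (k : ℝ) := by
        refine sum_le_sum fun j' hj' => ?_
        refine (abs_sum_le j' (fun j => h j * h j') fun j => ?_).trans ?_
        · rw [abs_mul]; exact mul_le_one₀ (hh j) (abs_nonneg _) (hh j')
        · exact_mod_cast (mem_range.1 hj').le
    _ = (k : ℝ) ^ 2 := by simp; ring

theorem expand (k : ℕ) : ∃ c : ℝ, 0 ≤ c ∧ ∀ (h : ℕ → ℝ), (∀ j, |h j| ≤ 1) → ∀ ε : ℝ, |ε| ≤ 1 →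
    |∏ j ∈ range k, (1 + ε * h j) - (1 + ε * ∑ j ∈ range k, h j + ε ^ 2 * e2 k h)| ≤
      c * |ε| ^ 3 := by
  induction k with
  | zero => exact ⟨0, le_rfl, fun h _ ε _ => by simp [e2]⟩
  | succ k ih =>
    obtain ⟨c, hc0, hc⟩ := ih
    refine ⟨2 * c + (k : ℝ) ^ 2, by positivity, fun h hh ε hε => ?_⟩
    have h1 := hc h hh ε hε
    have he : e2 (k + 1) h = e2 k h + (∑ j ∈ range k, h j) * h k := by
      unfold e2; rw [sum_range_succ, sum_mul]
    rw [prod_range_succ, sum_range_succ, he]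
    set P := ∏ j ∈ range k, (1 + ε * h j)
    set s := ∑ j ∈ range k, h j
    set e := e2 k h
    have hid : P * (1 + ε * h k) - (1 + ε * (s + h k) + ε ^ 2 * (e + s * h k)) =
        (P - (1 + ε * s + ε ^ 2 * e)) * (1 + ε * h k) + ε ^ 3 * (e * h k) := by ring
    rw [hid]
    refine (abs_add_le _ _).trans ?_
    rw [abs_mul, abs_mul, abs_mul, abs_pow]
    have h2 : |1 + ε * h k| ≤ 2 := by
      refine (abs_add_le _ _).trans ?_
      rw [abs_mul, abs_one]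
      have := mul_le_one₀ hε (abs_nonneg _) (hh k)
      linarith
    have h3 : |e| * |h k| ≤ (k : ℝ) ^ 2 := by
      have := abs_e2_le k h hh
      calc |e| * |h k| ≤ |e| * 1 := mul_le_mul_of_nonneg_left (hh k) (abs_nonneg _)
        _ ≤ _ := by rw [mul_one]; exact this
    have h4 : |P - (1 + ε * s + ε ^ 2 * e)| * |1 + ε * h k| ≤ c * |ε| ^ 3 * 2 :=
      mul_le_mul h1 h2 (abs_nonneg _) (by positivity)
    have h5 : |ε| ^ 3 * (|e| * |h k|) ≤ |ε| ^ 3 * (k : ℝ) ^ 2 :=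
      mul_le_mul_of_nonneg_left h3 (by positivity)
    nlinarith

theorem expand_pair (k : ℕ) : ∃ c : ℝ, 0 ≤ c ∧ ∀ (h : ℕ → ℝ), (∀ j, |h j| ≤ 1) → ∀ ε : ℝ, 0 ≤ ε →
    ε ≤ 1 → ∏ j ∈ range k, (1 + ε * h j) + ∏ j ∈ range k, (1 - ε * h j) ≤
      2 + 2 * ε ^ 2 * e2 k h + c * ε ^ 3 := by
  obtain ⟨c, hc0, hc⟩ := expand k
  refine ⟨2 * c, by positivity, fun h hh ε h0 h1 => ?_⟩
  have ha := hc h hh ε (by rwa [abs_of_nonneg h0])
  have hb := hc h hh (-ε) (by rwa [abs_neg, abs_of_nonneg h0])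
  rw [abs_neg, abs_of_nonneg h0] at hb
  rw [abs_of_nonneg h0] at ha
  have : ∏ j ∈ range k, (1 + -ε * h j) = ∏ j ∈ range k, (1 - ε * h j) :=
    prod_congr rfl fun j _ => by ring
  rw [this] at hb
  have ha' := (abs_le.1 ha).2
  have hb' := (abs_le.1 hb).2
  nlinarith

/-- `u`, `v` are the terms number `j`, `j'` of some progression. -/
def Pr (k n j j' u v : ℕ) : Prop := ∃ p ∈ aps k n, p.1 + j * p.2 = u ∧ p.1 + j' * p.2 = v

open Classical in
/-- Indicator of `Pr`. -/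
noncomputable def ind (k n j j' u v : ℕ) : ℝ := if Pr k n j j' u v then 1 else 0

theorem ind_nonneg (k n j j' u v : ℕ) : 0 ≤ ind k n j j' u v := by
  unfold ind; split_ifs <;> norm_num

theorem ind_le (k n j j' u v : ℕ) : ind k n j j' u v ≤ 1 := by
  unfold ind; split_ifs <;> norm_num

theorem ind_mono {k n j j' u v u' v' : ℕ} (h : Pr k n j j' u v → Pr k n j j' u' v') :
    ind k n j j' u v ≤ ind k n j j' u' v' := by
  unfold ind
  by_cases h1 : Pr k n j j' u v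
  · rw [if_pos h1, if_pos (h h1)]
  · rw [if_neg h1]; split_ifs <;> norm_num

theorem sum_ind {k n j j' : ℕ} (hj : j < j') (X Y : Finset ℕ) :
    ∑ p ∈ aps k n, (if p.1 + j * p.2 ∈ X then (1 : ℝ) else 0) *
      (if p.1 + j' * p.2 ∈ Y then (1 : ℝ) else 0) = ∑ u ∈ X, ∑ v ∈ Y, ind k n j j' u v := by
  have h1 : ∀ p : ℕ × ℕ, (if p.1 + j * p.2 ∈ X then (1 : ℝ) else 0) *
      (if p.1 + j' * p.2 ∈ Y then (1 : ℝ) else 0) =
      ∑ u ∈ X, ∑ v ∈ Y, if p.1 + j * p.2 = u ∧ p.1 + j' * p.2 = v then (1 : ℝ) else 0 := by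
    intro p
    rw [← sum_ite_eq X (p.1 + j * p.2) (fun _ => (1 : ℝ)),
      ← sum_ite_eq Y (p.1 + j' * p.2) (fun _ => (1 : ℝ)), sum_mul_sum]
    refine sum_congr rfl fun u _ => sum_congr rfl fun v _ => ?_
    by_cases ha : p.1 + j * p.2 = u <;> by_cases hb : p.1 + j' * p.2 = v <;> simp [ha, hb]
  simp only [h1]
  rw [sum_comm]
  refine sum_congr rfl fun u _ => ?_
  rw [sum_comm]
  refine sum_congr rfl fun v _ => ?_
  unfold ind
  split_ifs with h
  · obtain ⟨p, hp, hu, hv⟩ := h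
    rw [sum_eq_single p]
    · rw [if_pos ⟨hu, hv⟩]
    · intro q _ hq
      rw [if_neg]
      rintro ⟨hu', hv'⟩
      apply hq
      obtain ⟨t, rfl⟩ := Nat.exists_eq_add_of_lt hj
      have h2 : (t + 1) * q.2 = (t + 1) * p.2 := by nlinarith
      have h3 : q.2 = p.2 := Nat.eq_of_mul_eq_mul_left (by omega) h2
      rw [h3] at hu'
      exact Prod.ext (by omega) h3
    · intro h; exact absurd hp h
  · refine sum_eq_zero fun p hp => ?_
    rw [if_neg]
    exact fun hh => h ⟨p, hp, hh⟩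

theorem Pr.spec {k n j t u v : ℕ} (hk : 2 ≤ k) (h : Pr k n j (j + t) u v) :
    ∃ a d, 1 ≤ a ∧ 1 ≤ d ∧ a + (k - 1) * d ≤ n ∧ a + j * d = u ∧ u + t * d = v := by
  obtain ⟨p, hp, hu, hv⟩ := h
  rw [mem_aps hk] at hp
  exact ⟨p.1, p.2, hp.1, hp.2.1, hp.2.2, hu, by rw [← hu, ← hv]; ring⟩

theorem Pr.mk' {k n j t u v : ℕ} (hk : 2 ≤ k) (a d : ℕ) (h1 : 1 ≤ a) (h2 : 1 ≤ d)
    (h3 : a + (k - 1) * d ≤ n) (h4 : a + j * d = u) (h5 : u + t * d = v) :
    Pr k n j (j + t) u v :=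
  ⟨(a, d), (mem_aps hk).2 ⟨h1, h2, h3⟩, h4, by rw [← h5, ← h4]; ring⟩

theorem Pr.fit {k n j t u v d M : ℕ} (hk : 2 ≤ k) (hj : j < k) (ht : 1 ≤ t) (hd : 1 ≤ d)
    (h5 : u + t * d = v) (hM : v ≤ u + M) (hu : k * M < u) (hn : u + k * M ≤ n) :
    Pr k n j (j + t) u v := by
  have h1 : d ≤ M := by
    have : d ≤ t * d := Nat.le_mul_of_pos_left _ ht
    omega
  have h2 : j * d ≤ k * M := Nat.mul_le_mul hj.le h1
  have h3 : (k - 1) * d ≤ k * M := Nat.mul_le_mul (by omega) h1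
  exact Pr.mk' hk (u - j * d) d (by omega) hd (by omega) (by omega) h5

/-- The test function. -/
noncomputable def hfun (α β W D N x : ℕ) : ℝ :=
  (if x ∈ Ico α (α + W) then 1 else 0) - (if x ∈ Ico (α + D) (α + D + W) then 1 else 0) +
    (if x ∈ Ico β (β + N) then 1 else 0)

theorem abs_hfun {α β W D N : ℕ} (h1 : W ≤ D) (h2 : α + D + W ≤ β) (x : ℕ) :
    |hfun α β W D N x| ≤ 1 := by
  unfold hfun
  simp only [mem_Ico]
  split_ifs <;> first | omega | norm_num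

/-- The sum over progressions of `h (u) h (v)`, written through nine blocks. -/
theorem pair_sum {k n j j' : ℕ} (hj : j < j') (α β W D N : ℕ) :
    ∑ p ∈ aps k n, hfun α β W D N (p.1 + j * p.2) * hfun α β W D N (p.1 + j' * p.2) =
      (∑ x ∈ range W, ∑ y ∈ range W, ind k n j j' (α + x) (α + y)
        - ∑ x ∈ range W, ∑ y ∈ range W, ind k n j j' (α + x) (α + D + y)
        + ∑ x ∈ range W, ∑ y ∈ range N, ind k n j j' (α + x) (β + y))
      - (∑ x ∈ range W, ∑ y ∈ range W, ind k n j j' (α + D + x) (α + y)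
        - ∑ x ∈ range W, ∑ y ∈ range W, ind k n j j' (α + D + x) (α + D + y)
        + ∑ x ∈ range W, ∑ y ∈ range N, ind k n j j' (α + D + x) (β + y))
      + (∑ x ∈ range N, ∑ y ∈ range W, ind k n j j' (β + x) (α + y)
        - ∑ x ∈ range N, ∑ y ∈ range W, ind k n j j' (β + x) (α + D + y)
        + ∑ x ∈ range N, ∑ y ∈ range N, ind k n j j' (β + x) (β + y)) := by
  have key : ∀ a b c d : ℕ, ∑ x ∈ range b, ∑ y ∈ range d, ind k n j j' (a + x) (c + y) =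
      ∑ p ∈ aps k n, (if p.1 + j * p.2 ∈ Ico a (a + b) then (1 : ℝ) else 0) *
      (if p.1 + j' * p.2 ∈ Ico c (c + d) then (1 : ℝ) else 0) := by
    intro a b c d
    rw [sum_ind hj, sum_Ico_eq_sum_range, Nat.add_sub_cancel_left]
    refine sum_congr rfl fun x _ => ?_
    rw [sum_Ico_eq_sum_range, Nat.add_sub_cancel_left]
  simp only [key, ← sum_add_distrib, ← sum_sub_distrib]
  refine sum_congr rfl fun p _ => ?_
  unfold hfun
  ring

end Pool.Agent.H273Z.AP
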